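import Mathlib

namespace Pool.Agent.H46.Dg
open Finset
open scoped Pointwise

variable {G : Type} [AddCommGroup G] [Fintype G] [DecidableEq G]

lemma step (h : ℕ) (hh : 1 ≤ h) (X Y B : Finset G) (hX : X.Nonempty) (hB : h • B = univ)
    (hXY : X + B ⊆ Y) :
    Y.Nonempty ∧ Real.log (Fintype.card G) - Real.log Y.card ≤
      (1 - 1 / (h : ℝ)) * (Real.log (Fintype.card G) - Real.log X.card) := by
  have hBn : B.Nonempty := by
    rcases B.eq_empty_or_nonempty with rfl | hne
    · exfalso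
      obtain ⟨h', rfl⟩ : ∃ h', h = h' + 1 := ⟨h - 1, by omega⟩
      rw [succ_nsmul] at hB
      simp at hB
      exact (univ_nonempty (α := G)).ne_empty hB.symm
    · exact hne
  have hY : Y.Nonempty := (hX.add hBn).mono hXY
  refine ⟨hY, ?_⟩
  have h1 := Finset.pluennecke_ruzsa_inequality_nsmul_add hX B h
  rw [hB, card_univ] at h1
  have h2 : (Fintype.card G : ℝ) ≤ (((X + B).card : ℝ) / X.card) ^ h * X.card := by
    have := (NNRat.cast_le (K := ℝ)).2 h1
    push_cast at this
    exact this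
  have hx : (0 : ℝ) < X.card := by exact_mod_cast hX.card_pos
  have hy : (0 : ℝ) < Y.card := by exact_mod_cast hY.card_pos
  have hg : (0 : ℝ) < Fintype.card G := by exact_mod_cast Fintype.card_pos
  have h3 : ((X + B).card : ℝ) ≤ Y.card := by exact_mod_cast card_le_card hXY
  have h4 : (Fintype.card G : ℝ) ≤ ((Y.card : ℝ) / X.card) ^ h * X.card := by
    refine h2.trans ?_
    gcongr
  have h5 := Real.log_le_log hg h4
  rw [Real.log_mul (by positivity) hx.ne', Real.log_pow, Real.log_div hy.ne' hx.ne'] at h5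
  have hh' : (0 : ℝ) < h := by exact_mod_cast hh
  have : (1 - 1 / (h : ℝ)) * (Real.log (Fintype.card G) - Real.log X.card) =
      (Real.log (Fintype.card G) - Real.log X.card) -
        (Real.log (Fintype.card G) - Real.log X.card) / h := by ring
  rw [this]
  have : (Real.log (Fintype.card G) - Real.log X.card) / h ≤ Real.log Y.card - Real.log X.card := by
    rw [div_le_iff₀ hh']; linarith
  linarith

lemma iter (h : ℕ) (hh : 1 ≤ h) (X B : ℕ → Finset G) (r : ℕ) (hX : (X 0).Nonempty)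
    (hB : ∀ w < r, h • B w = univ) (hXY : ∀ w < r, X w + B w ⊆ X (w + 1)) :
    (X r).Nonempty ∧ Real.log (Fintype.card G) - Real.log (X r).card ≤
      (1 - 1 / (h : ℝ)) ^ r * Real.log (Fintype.card G) := by
  induction r with
  | zero =>
    refine ⟨hX, ?_⟩
    have : 0 ≤ Real.log ((X 0).card : ℝ) :=
      Real.log_nonneg (by exact_mod_cast hX.card_pos)
    simp only [pow_zero, one_mul]; linarith
  | succ r ih =>
    obtain ⟨h1, h2⟩ := ih (fun w hw => hB w (by omega)) (fun w hw => hXY w (by omega))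
    obtain ⟨h3, h4⟩ := step h hh (X r) (X (r + 1)) (B r) h1 (hB r (by omega)) (hXY r (by omega))
    refine ⟨h3, h4.trans ?_⟩
    have hh' : (1 : ℝ) ≤ h := by exact_mod_cast hh
    have h0 : 0 ≤ 1 - 1 / (h : ℝ) := by
      have : 1 / (h : ℝ) ≤ 1 := by rw [div_le_one (by linarith)]; exact hh'
      linarith
    rw [pow_succ, mul_comm (_ ^ r), mul_assoc]
    exact mul_le_mul_of_nonneg_left h2 h0

lemma half (X Y : Finset G) (hX : Fintype.card G < 2 * X.card) (hY : Fintype.card G < 2 * Y.card)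
    (y : G) : ∃ x ∈ X, ∃ z ∈ Y, x + z = y := by
  by_contra hc
  push Not at hc
  have hd : Disjoint X (Y.image fun z => y - z) := by
    rw [disjoint_left]
    intro x hx hx'
    obtain ⟨z, hz, rfl⟩ := mem_image.1 hx'
    exact hc _ hx z hz (by abel)
  have h1 := card_le_univ (X ∪ Y.image fun z => y - z)
  rw [card_union_of_disjoint hd, card_image_of_injective _ (sub_right_injective)] at h1
  omega

open Classical in
noncomputable def R (g : ℕ → G) (e : G) (u v D : ℕ) : Finset G :=
  univ.filter fun x => ∃ S ⊆ Ico u v, ∃ i ≤ D, x = ∑ d ∈ S, g d + i • e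

lemma mem_R {g : ℕ → G} {e : G} {u v D : ℕ} {x : G} :
    x ∈ R g e u v D ↔ ∃ S ⊆ Ico u v, ∃ i ≤ D, x = ∑ d ∈ S, g d + i • e := by
  simp [R]

lemma R_add (g : ℕ → G) (e : G) (u v w D D' : ℕ) (huv : u ≤ v) (hvw : v ≤ w) :
    R g e u v D + R g e v w D' ⊆ R g e u w (D + D') := by
  intro x hx
  obtain ⟨a, ha, c, hc, rfl⟩ := mem_add.1 hx
  obtain ⟨S, hS, i, hi, rfl⟩ := mem_R.1 ha
  obtain ⟨S', hS', i', hi', rfl⟩ := mem_R.1 hc
  refine mem_R.2 ⟨S ∪ S', ?_, i + i', by omega, ?_⟩
  · intro d hd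
    rcases mem_union.1 hd with h | h
    · have := mem_Ico.1 (hS h); exact mem_Ico.2 (by omega)
    · have := mem_Ico.1 (hS' h); exact mem_Ico.2 (by omega)
  · have hd : Disjoint S S' := by
      rw [disjoint_left]
      intro d h h'
      have := mem_Ico.1 (hS h); have := mem_Ico.1 (hS' h'); omega
    rw [sum_union hd, add_smul]; abel

lemma mem_nsmul_R (g : ℕ → G) (e : G) (u v D : ℕ) (h : ℕ) :
    ∀ (a : ℕ → ℕ) (i : ℕ), (∀ d, a d ≤ h) → i ≤ h * D →
      ∑ d ∈ Ico u v, a d • g d + i • e ∈ h • R g e u v D := by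
  induction h with
  | zero =>
    intro a i ha hi
    have : i = 0 := by omega
    have ha' : ∀ d, a d = 0 := fun d => by have := ha d; omega
    simp [this, ha']
  | succ h ih =>
    intro a i ha hi
    rw [succ_nsmul]
    have h1 := ih (fun d => a d - 1) (i - D) (fun d => by have := ha d; omega)
      (by rw [Nat.succ_mul] at hi; omega)
    have h2 : ∑ d ∈ (Ico u v).filter (fun d => 1 ≤ a d), g d + (min i D) • e ∈ R g e u v D :=
      mem_R.2 ⟨_, filter_subset _ _, min i D, by omega, rfl⟩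
    refine mem_add.2 ⟨_, h1, _, h2, ?_⟩
    have h3 : ∑ d ∈ Ico u v, a d • g d = ∑ d ∈ Ico u v, (a d - 1) • g d +
        ∑ d ∈ (Ico u v).filter (fun d => 1 ≤ a d), g d := by
      rw [sum_filter, ← sum_add_distrib]
      refine sum_congr rfl fun d _ => ?_
      split_ifs with hd
      · obtain ⟨c, hc⟩ : ∃ c, a d = c + 1 := ⟨a d - 1, by omega⟩
        rw [hc, Nat.add_sub_cancel, succ_nsmul]
      · have : a d = 0 := by omega
        simp [this]
    have h4 : i • e = (i - D) • e + (min i D) • e := by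
      rw [← add_smul]; congr 1; omega
    rw [h3, h4]; abel

lemma big (g : ℕ → G) (e : G) (h L D r u : ℕ) (hh : 1 ≤ h)
    (hw : ∀ w < r, ∀ y : G, ∃ (a : ℕ → ℕ) (i : ℕ), (∀ d, a d ≤ h) ∧ i ≤ D ∧
      y = ∑ d ∈ Ico (u + w * L) (u + w * L + L), a d • g d + i • e)
    (hr : (1 - 1 / (h : ℝ)) ^ r * Real.log (Fintype.card G) < Real.log 2) :
    Fintype.card G < 2 * (R g e u (u + r * L) (r * D)).card := by
  obtain ⟨h1, h2⟩ := iter h hh (fun w => R g e u (u + w * L) (w * D))
    (fun w => R g e (u + w * L) (u + w * L + L) D) r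
    ⟨0, mem_R.2 ⟨∅, empty_subset _, 0, by omega, by simp⟩⟩
    (fun w hw' => by
      refine eq_univ_of_forall fun y => ?_
      obtain ⟨a, i, ha, hi, rfl⟩ := hw w hw' y
      exact mem_nsmul_R g e _ _ D h a i ha (hi.trans (Nat.le_mul_of_pos_left _ hh)))
    (fun w _ => by
      have := R_add g e u (u + w * L) (u + w * L + L) (w * D) D (by omega) (by omega)
      have e1 : u + (w + 1) * L = u + w * L + L := by ring
      have e2 : (w + 1) * D = w * D + D := by ring
      simp only [e1, e2]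
      exact this)
  have hx : (0 : ℝ) < (R g e u (u + r * L) (r * D)).card := by exact_mod_cast h1.card_pos
  have hg : (0 : ℝ) < Fintype.card G := by exact_mod_cast Fintype.card_pos
  have h3 : Real.log (Fintype.card G) < Real.log (2 * (R g e u (u + r * L) (r * D)).card) := by
    rw [Real.log_mul (by norm_num) hx.ne']; linarith
  have := (Real.log_lt_log_iff hg (by positivity)).1 h3
  exact_mod_cast this

lemma cover (g : ℕ → G) (e : G) (h L D r : ℕ) (hh : 1 ≤ h)
    (hw : ∀ w < 2 * r, ∀ y : G, ∃ (a : ℕ → ℕ) (i : ℕ), (∀ d, a d ≤ h) ∧ i ≤ D ∧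
      y = ∑ d ∈ Ico (w * L) (w * L + L), a d • g d + i • e)
    (hr : (1 - 1 / (h : ℝ)) ^ r * Real.log (Fintype.card G) < Real.log 2) :
    ∃ S ⊆ range (2 * r * L + 1), S.Nonempty ∧ ∃ i ≤ 2 * r * D, ∑ d ∈ S, g d + i • e = 0 := by
  have h1 := big g e h L D r 0 hh (fun w hw' y => by
    simpa using hw w (by omega) y) hr
  have h2 := big g e h L D r (0 + r * L) hh (fun w hw' y => by
    have := hw (r + w) (by omega) y
    have e1 : (r + w) * L = 0 + r * L + w * L := by ring
    rw [e1] at this; exact this) hr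
  obtain ⟨x, hx, z, hz, hxz⟩ := half _ _ h1 h2 (-g (2 * r * L))
  have h3 := R_add g e 0 (0 + r * L) (0 + r * L + r * L) (r * D) (r * D) (by omega) (by omega)
    (add_mem_add hx hz)
  obtain ⟨S, hS, i, hi, hE⟩ := mem_R.1 h3
  have e2 : 2 * r * L = r * L + r * L := by ring
  have e3 : 2 * r * D = r * D + r * D := by ring
  have hn : 2 * r * L ∉ S := fun hc => by
    have := mem_Ico.1 (hS hc); omega
  refine ⟨insert (2 * r * L) S, ?_, insert_nonempty _ _, i, by omega, ?_⟩
  · intro d hd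
    rcases mem_insert.1 hd with rfl | hd
    · simp
    · have := mem_Ico.1 (hS hd); exact mem_range.2 (by omega)
  · rw [sum_insert hn, add_assoc, ← hE, hxz]; simp

lemma digs (b : ℕ) (hb : 1 ≤ b) (L : ℕ) : ∀ j < b ^ L, ∃ a : ℕ → ℕ, (∀ d, a d ≤ b - 1) ∧
    j = ∑ d ∈ range L, a d * b ^ d := by
  induction L with
  | zero => intro j hj; exact ⟨fun _ => 0, fun _ => Nat.zero_le _, by simp at hj ⊢; exact hj⟩
  | succ L ih =>
    intro j hj
    have hp : 0 < b ^ L := by positivity
    obtain ⟨a, ha, hE⟩ := ih (j % b ^ L) (Nat.mod_lt _ hp)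
    have hq : j / b ^ L < b := by
      rw [Nat.div_lt_iff_lt_mul hp]; rw [pow_succ, mul_comm] at hj; exact hj
    refine ⟨fun d => if d = L then j / b ^ L else a d, fun d => ?_, ?_⟩
    · dsimp only
      split_ifs
      · omega
      · exact ha d
    · dsimp only
      rw [sum_range_succ, if_pos rfl]
      have : ∑ d ∈ range L, (if d = L then j / b ^ L else a d) * b ^ d =
          ∑ d ∈ range L, a d * b ^ d :=
        sum_congr rfl fun d hd => by rw [if_neg (by have := mem_range.1 hd; omega)]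
      rw [this, ← hE, mul_comm]
      exact (Nat.mod_add_div _ _).symm

lemma digs' (b : ℕ) (hb : 1 ≤ b) (L u : ℕ) (j : ℕ) (hj : j < b ^ L) : ∃ a : ℕ → ℕ,
    (∀ d, a d ≤ b - 1) ∧ b ^ u * j = ∑ d ∈ Ico u (u + L), a d * b ^ d := by
  obtain ⟨a, ha, hE⟩ := digs b hb L j hj
  refine ⟨fun d => a (d - u), fun d => ha _, ?_⟩
  rw [sum_Ico_eq_sum_range, Nat.add_sub_cancel_left, hE, mul_sum]
  refine sum_congr rfl fun d _ => ?_
  dsimp only
  rw [Nat.add_sub_cancel_left, pow_add]; ring

end Pool.Agent.H46.Dg
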