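import Pool.Agent.H46.Dg.A

namespace Pool.Agent.H46.Dg
open Finset

lemma dense (β : ℝ) (T M : ℕ) (hT : 1 ≤ T) (hM : 1 ≤ M)
    (hβ : ∀ t : ℕ, 1 ≤ t → t ≤ T → ∀ z : ℤ, 1 / (M : ℝ) ≤ |t * β - z|) (τ : ℝ) :
    ∃ j : ℕ, j ≤ T * (M + 1) ∧ ∃ z : ℤ, 0 ≤ τ - β * j - z ∧ τ - β * j - z ≤ 1 / (T : ℝ) := by
  obtain ⟨p, k, hk0, hkT, hk⟩ := Real.exists_int_int_abs_mul_sub_le β (n := T) (by omega)
  obtain ⟨t, rfl⟩ : ∃ t : ℕ, k = t := ⟨k.toNat, by omega⟩
  have ht1 : 1 ≤ t := by omega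
  have htT : t ≤ T := by omega
  have h1 := hβ t ht1 htT p
  have hT' : (0 : ℝ) < T := by exact_mod_cast hT
  have hM' : (0 : ℝ) < M := by exact_mod_cast hM
  have h2 : |(t : ℝ) * β - p| ≤ 1 / (T : ℝ) := by
    have hk' : |(t : ℝ) * β - p| ≤ 1 / ((T : ℝ) + 1) := by simpa using hk
    refine le_trans hk' ?_
    exact one_div_le_one_div_of_le hT' (by linarith)
  set θ : ℝ := t * β - p with hθ
  have hpos : 0 < |θ| := lt_of_lt_of_le (by positivity) h1
  have hinv : 1 ≤ |θ| * M := by rwa [div_le_iff₀ hM'] at h1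
  have f0 := Int.fract_nonneg τ
  have f1 := Int.fract_lt_one τ
  have ff : Int.fract τ = τ - ⌊τ⌋ := rfl
  rcases lt_or_ge 0 θ with hp | hn
  · rw [abs_of_pos hp] at h2 hinv
    set i := ⌊Int.fract τ / θ⌋₊ with hi
    have i1 : (i : ℝ) ≤ Int.fract τ / θ := Nat.floor_le (by positivity)
    have i2 : Int.fract τ / θ < i + 1 := Nat.lt_floor_add_one _
    rw [le_div_iff₀ hp] at i1
    rw [div_lt_iff₀ hp] at i2
    have i3 : (i : ℝ) ≤ M := by
      have : (i : ℝ) * θ ≤ M * θ := by linarith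
      exact le_of_mul_le_mul_right this hp
    have i4 : i ≤ M := by exact_mod_cast i3
    refine ⟨t * i, Nat.mul_le_mul htT (by omega), ⌊τ⌋ - i * p, ?_, ?_⟩
    · push_cast
      have : τ - β * (t * i) - (⌊τ⌋ - i * p) = Int.fract τ - i * θ := by rw [ff, hθ]; ring
      rw [this]; linarith
    · push_cast
      have : τ - β * (t * i) - (⌊τ⌋ - i * p) = Int.fract τ - i * θ := by rw [ff, hθ]; ring
      rw [this]; linarith
  · have hn' : θ < 0 := lt_of_le_of_ne hn (fun h => by rw [h] at hpos; simp at hpos)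
    rw [abs_of_neg hn'] at h2 hinv
    have hq : 0 < -θ := by linarith
    set i := ⌈(1 - Int.fract τ) / (-θ)⌉₊ with hi
    have i1 : (1 - Int.fract τ) / (-θ) ≤ i := Nat.le_ceil _
    have i2 : (i : ℝ) < (1 - Int.fract τ) / (-θ) + 1 :=
      Nat.ceil_lt_add_one (div_nonneg (by linarith) hq.le)
    rw [div_le_iff₀ hq] at i1
    have i2' : (i : ℝ) - 1 < (1 - Int.fract τ) / (-θ) := by linarith
    rw [lt_div_iff₀ hq] at i2'
    have i3 : (i : ℝ) - 1 ≤ M := by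
      have : ((i : ℝ) - 1) * (-θ) ≤ M * (-θ) := by linarith
      exact le_of_mul_le_mul_right this hq
    have i4 : i ≤ M + 1 := by
      have : (i : ℝ) ≤ M + 1 := by linarith
      exact_mod_cast this
    refine ⟨t * i, Nat.mul_le_mul htT i4, ⌊τ⌋ + 1 - i * p, ?_, ?_⟩
    · push_cast
      have : τ - β * (t * i) - (⌊τ⌋ + 1 - i * p) = Int.fract τ - 1 + i * (-θ) := by
        rw [ff, hθ]; ring
      rw [this]; linarith
    · push_cast
      have : τ - β * (t * i) - (⌊τ⌋ + 1 - i * p) = Int.fract τ - 1 + i * (-θ) := by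
        rw [ff, hθ]; ring
      rw [this]; linarith

lemma cop (b : ℕ) : ∀ t : ℕ, 1 ≤ t → ∃ e s : ℕ, 2 ^ e ≤ t ∧ Nat.Coprime s b ∧ 1 ≤ s ∧ s ≤ t ∧
    t ∣ b ^ e * s := by
  intro t
  induction t using Nat.strong_induction_on with
  | _ t ih =>
    intro ht
    by_cases hc : Nat.Coprime t b
    · exact ⟨0, t, by simpa using ht, hc, ht, le_rfl, by simp⟩
    · obtain ⟨t', ht'⟩ := Nat.gcd_dvd_left t b
      have hg0 : 0 < Nat.gcd t b := Nat.gcd_pos_of_pos_left _ ht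
      have hg : 2 ≤ Nat.gcd t b := by
        have : Nat.gcd t b ≠ 1 := hc
        omega
      have h1 : 1 ≤ t' := by
        rcases Nat.eq_zero_or_pos t' with rfl | h
        · omega
        · exact h
      have h2 : 2 * t' ≤ t := by
        calc 2 * t' ≤ Nat.gcd t b * t' := Nat.mul_le_mul_right _ hg
          _ = t := ht'.symm
      obtain ⟨e, s, he, hs, hs1, hs2, hd⟩ := ih t' (by omega) h1
      refine ⟨e + 1, s, by rw [pow_succ]; omega, hs, hs1, by omega, ?_⟩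
      have : Nat.gcd t b * t' ∣ b * (b ^ e * s) := Nat.mul_dvd_mul (Nat.gcd_dvd_right _ _) hd
      rw [← ht'] at this
      have e1 : b ^ (e + 1) * s = b * (b ^ e * s) := by ring
      rw [e1]; exact this

lemma rcond (b m s P : ℕ) (hb : 2 ≤ b) (hs : b * m < 2 ^ s) (hP1 : 1 ≤ P) (hP : P ≤ b ^ m) :
    (1 - 1 / ((b - 1 : ℕ) : ℝ)) ^ (b * s) * Real.log P < Real.log 2 := by
  have hb' : (2 : ℝ) ≤ b := by exact_mod_cast hb
  have hc : ((b - 1 : ℕ) : ℝ) = b - 1 := by rw [Nat.cast_sub (by omega)]; simp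
  rw [hc]
  have l2 : 0 < Real.log 2 := Real.log_pos (by norm_num)
  have h0 : 0 ≤ 1 - 1 / ((b : ℝ) - 1) := by
    have : 1 / ((b : ℝ) - 1) ≤ 1 := by rw [div_le_one (by linarith)]; linarith
    linarith
  have h1 : 1 - 1 / ((b : ℝ) - 1) ≤ Real.exp (-(1 / (b : ℝ))) := by
    have := Real.add_one_le_exp (-(1 / (b : ℝ)))
    have : 1 / (b : ℝ) ≤ 1 / ((b : ℝ) - 1) := one_div_le_one_div_of_le (by linarith) (by linarith)
    linarith
  have h2 : (1 - 1 / ((b : ℝ) - 1)) ^ (b * s) ≤ (1 / 2) ^ s := by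
    rw [pow_mul]
    refine pow_le_pow_left₀ (by positivity) ?_ _
    calc (1 - 1 / ((b : ℝ) - 1)) ^ b ≤ (Real.exp (-(1 / (b : ℝ)))) ^ b :=
          pow_le_pow_left₀ h0 h1 _
      _ = Real.exp (-1) := by
          rw [← Real.exp_nat_mul]; congr 1; field_simp
      _ ≤ 1 / 2 := by
          rw [Real.exp_neg, one_div]
          refine inv_anti₀ (by norm_num) ?_
          have := Real.add_one_le_exp (1 : ℝ); linarith
  have h3 : Real.log P ≤ (b * m : ℕ) * Real.log 2 := by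
    rw [← Real.log_pow]
    refine Real.log_le_log (by exact_mod_cast hP1) ?_
    have : P ≤ 2 ^ (b * m) := by
      refine hP.trans ?_
      rw [pow_mul]
      exact Nat.pow_le_pow_left (Nat.lt_two_pow_self).le _
    exact_mod_cast this
  have h4 : ((b * m : ℕ) : ℝ) < 2 ^ s := by exact_mod_cast hs
  have h5 : 0 ≤ Real.log P := Real.log_nonneg (by exact_mod_cast hP1)
  calc _ ≤ (1 / 2) ^ s * ((b * m : ℕ) * Real.log 2) :=
        mul_le_mul h2 h3 h5 (by positivity)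
    _ = ((b * m : ℕ) / 2 ^ s) * Real.log 2 := by rw [one_div, inv_pow]; ring
    _ < 1 * Real.log 2 := by
        refine mul_lt_mul_of_pos_right ?_ l2
        rw [div_lt_one (by positivity)]; exact h4
    _ = _ := one_mul _

lemma mult (b m s t : ℕ) (hb : 2 ≤ b) (hs : b * m < 2 ^ s) (ht1 : 1 ≤ t) (ht : t ≤ b ^ m)
    (hc : Nat.Coprime t b) :
    ∃ S ⊆ range (2 * (b * s) * m + 1), S.Nonempty ∧ t ∣ ∑ d ∈ S, b ^ d := by
  have : NeZero t := ⟨by omega⟩
  obtain ⟨S, hS, hne, i, -, hE⟩ := cover (G := ZMod t) (fun d => ((b ^ d : ℕ) : ZMod t)) 0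
    (b - 1) m 0 (b * s) (by omega) (fun w _ y => by
      have hu : IsUnit ((b ^ (w * m) : ℕ) : ZMod t) := by
        rw [ZMod.isUnit_iff_coprime]
        exact Nat.Coprime.pow_left _ hc.symm
      obtain ⟨v, hv⟩ := hu.exists_right_inv
      have hj : (v * y).val < b ^ m := lt_of_lt_of_le (ZMod.val_lt _) ht
      obtain ⟨a, ha, hE⟩ := digs' b (by omega) m (w * m) _ hj
      refine ⟨a, 0, ha, le_rfl, ?_⟩
      have := congrArg (fun x : ℕ => (x : ZMod t)) hE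
      simp only [Nat.cast_mul, ZMod.natCast_val, ZMod.cast_id', id_eq, Nat.cast_sum] at this
      rw [← mul_assoc, hv, one_mul] at this
      rw [this]
      simp [nsmul_eq_mul])
    (by rw [ZMod.card]; exact rcond b m s t hb hs ht1 ht)
  refine ⟨S, hS, hne, ?_⟩
  rw [← ZMod.natCast_eq_zero_iff]
  simpa using hE

lemma caseA (b m s L : ℕ) (hb : 2 ≤ b) (hs : b * m < 2 ^ s) (γ : ℝ)
    (hA : ∀ w < 2 * (b * s), ∀ τ : ℝ, ∃ j < b ^ L, ∃ z : ℤ,
      0 ≤ τ - γ * b ^ (w * L) * j - z ∧ τ - γ * b ^ (w * L) * j - z ≤ 1 / ((b ^ m : ℕ) : ℝ)) :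
    ∃ S ⊆ range (2 * (b * s) * L + 1), S.Nonempty ∧ ∃ z : ℤ,
      |γ * (∑ d ∈ S, b ^ d : ℕ) - z| ≤
        (2 * (b * s) * (1 + (b - 1) * L) + (2 * (b * s) * L + 1) : ℕ) / ((b ^ m : ℕ) : ℝ) := by
  set P := b ^ m with hP
  have hP1 : 1 ≤ P := Nat.one_le_pow _ _ (by omega)
  have hP' : (0 : ℝ) < P := by exact_mod_cast hP1
  have : NeZero P := ⟨by omega⟩
  set g : ℕ → ℤ := fun d => ⌊(P : ℝ) * γ * b ^ d⌋ with hg
  have g1 : ∀ d, (g d : ℝ) ≤ P * γ * b ^ d := fun d => Int.floor_le _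
  have g2 : ∀ d, (P : ℝ) * γ * b ^ d ≤ g d + 1 := fun d => (Int.lt_floor_add_one _).le
  obtain ⟨S, hS, hne, i, hi, hE⟩ := cover (G := ZMod P) (fun d => ((g d : ℤ) : ZMod P)) 1
    (b - 1) L (1 + (b - 1) * L) (b * s) (by omega) (fun w hw y => by
      obtain ⟨j, hj, z, hz1, hz2⟩ := hA w hw ((y.val : ℝ) / P)
      obtain ⟨a, ha, hE⟩ := digs' b (by omega) L (w * L) _ hj
      have hE' : (b : ℝ) ^ (w * L) * j = ∑ d ∈ Ico (w * L) (w * L + L), (a d : ℝ) * b ^ d := by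
        exact_mod_cast hE
      set I : ℤ := (y.val : ℤ) - ∑ d ∈ Ico (w * L) (w * L + L), (a d : ℤ) * g d - P * z with hI
      have e1 : (I : ℝ) = P * ((y.val : ℝ) / P - γ * b ^ (w * L) * j - z) +
          ∑ d ∈ Ico (w * L) (w * L + L), (a d : ℝ) * (P * γ * b ^ d - g d) := by
        rw [hI, mul_assoc γ, hE']
        push_cast
        simp only [mul_sub, sum_sub_distrib, mul_sum]
        rw [mul_div_cancel₀ _ hP'.ne']
        have : ∑ d ∈ Ico (w * L) (w * L + L), (P : ℝ) * (γ * (a d * b ^ d)) =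
            ∑ d ∈ Ico (w * L) (w * L + L), (a d : ℝ) * (P * γ * b ^ d) :=
          sum_congr rfl fun d _ => by ring
        rw [this]; ring
      have s0 : 0 ≤ ∑ d ∈ Ico (w * L) (w * L + L), (a d : ℝ) * (P * γ * b ^ d - g d) :=
        sum_nonneg fun d _ => mul_nonneg (Nat.cast_nonneg _) (by linarith [g1 d])
      have s1 : ∑ d ∈ Ico (w * L) (w * L + L), (a d : ℝ) * (P * γ * b ^ d - g d) ≤
          ((b - 1) * L : ℕ) := by
        calc _ ≤ ∑ d ∈ Ico (w * L) (w * L + L), ((b - 1 : ℕ) : ℝ) :=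
              sum_le_sum fun d _ => by
                have h1 : (a d : ℝ) ≤ (b - 1 : ℕ) := by exact_mod_cast ha d
                calc (a d : ℝ) * (P * γ * b ^ d - g d) ≤ a d * 1 :=
                      mul_le_mul_of_nonneg_left (by linarith [g2 d]) (Nat.cast_nonneg _)
                  _ ≤ _ := by linarith
          _ = _ := by simp [mul_comm]
      have t0 : 0 ≤ P * ((y.val : ℝ) / P - γ * b ^ (w * L) * j - z) := mul_nonneg hP'.le hz1
      have t1 : P * ((y.val : ℝ) / P - γ * b ^ (w * L) * j - z) ≤ 1 := by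
        calc _ ≤ (P : ℝ) * (1 / P) := mul_le_mul_of_nonneg_left hz2 hP'.le
          _ = 1 := by field_simp
      have I0 : 0 ≤ I := by
        have : (0 : ℝ) ≤ I := by rw [e1]; linarith
        exact_mod_cast this
      have I1 : I ≤ (1 + (b - 1) * L : ℕ) := by
        have : (I : ℝ) ≤ (1 + (b - 1) * L : ℕ) := by rw [e1]; push_cast at s1 ⊢; linarith
        exact_mod_cast this
      obtain ⟨i, hi⟩ : ∃ i : ℕ, I = i := ⟨I.toNat, by omega⟩
      refine ⟨a, i, ha, by omega, ?_⟩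
      have h2 : (y.val : ℤ) = ∑ d ∈ Ico (w * L) (w * L + L), (a d : ℤ) * g d + i + P * z := by
        rw [← hi, hI]; ring
      have := congrArg (fun x : ℤ => (x : ZMod P)) h2
      simp only [Int.cast_natCast, ZMod.natCast_zmod_val, Int.cast_add,
        Int.cast_sum, Int.cast_mul, ZMod.natCast_self, zero_mul, add_zero] at this
      rw [this]
      simp [nsmul_eq_mul])
    (by rw [ZMod.card]; exact rcond b m s P hb hs hP1 le_rfl)
  refine ⟨S, hS, hne, ?_⟩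
  have h1 : ((∑ d ∈ S, g d + i : ℤ) : ZMod P) = 0 := by
    simpa using hE
  rw [ZMod.intCast_zmod_eq_zero_iff_dvd] at h1
  obtain ⟨z, hz⟩ := h1
  refine ⟨z, ?_⟩
  have hz' : ∑ d ∈ S, (g d : ℝ) + i = P * z := by exact_mod_cast hz
  have e1 : γ * (∑ d ∈ S, b ^ d : ℕ) - z = (∑ d ∈ S, (P * γ * b ^ d - g d) - i) / P := by
    rw [eq_div_iff hP'.ne', sum_sub_distrib]
    push_cast
    rw [← mul_sum]
    linarith
  have s0 : 0 ≤ ∑ d ∈ S, ((P : ℝ) * γ * b ^ d - g d) :=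
    sum_nonneg fun d _ => by linarith [g1 d]
  have s1 : ∑ d ∈ S, ((P : ℝ) * γ * b ^ d - g d) ≤ (2 * (b * s) * L + 1 : ℕ) := by
    calc _ ≤ ∑ d ∈ S, (1 : ℝ) := sum_le_sum fun d _ => by linarith [g2 d]
      _ = S.card := by simp
      _ ≤ _ := by
        have := card_le_card hS
        rw [card_range] at this
        exact_mod_cast this
  have i1 : (i : ℝ) ≤ (2 * (b * s) * (1 + (b - 1) * L) : ℕ) := by exact_mod_cast hi
  have i0 : (0 : ℝ) ≤ i := Nat.cast_nonneg _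
  rw [e1, abs_div, abs_of_pos hP']
  refine div_le_div_of_nonneg_right ?_ hP'.le
  rw [Nat.cast_add (2 * (b * s) * (1 + (b - 1) * L))]
  have n1 : (0 : ℝ) ≤ (2 * (b * s) * (1 + (b - 1) * L) : ℕ) := Nat.cast_nonneg _
  have n2 : (0 : ℝ) ≤ (2 * (b * s) * L + 1 : ℕ) := Nat.cast_nonneg _
  rw [abs_le]; constructor <;> linarith

end Pool.Agent.H46.Dg
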