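import Pool.Agent.H46.Dg.B

namespace Pool.Agent.H46.Dg
open Finset

lemma ar1 (b r m : ℕ) (hb : 2 ≤ b) (hr : b ≤ r) (hm : 1 ≤ m) :
    b * m + 2 * r * m + 1 + 2 * m + 2 ≤ 6 * r * m := by
  have h1 : b * m ≤ r * m := Nat.mul_le_mul_right _ hr
  have h2 : 2 * m ≤ r * m := Nat.mul_le_mul_right _ (by omega)
  have e1 : 2 * r * m = 2 * (r * m) := by ring
  have e2 : 6 * r * m = 6 * (r * m) := by ring
  omega

lemma ar2 (r m L : ℕ) (hr : 2 ≤ r) (hm : 1 ≤ m) (hL : L ≤ 6 * r * m) :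
    2 * r * L + 1 ≤ 13 * r ^ 2 * m ∧ 2 * r + 1 ≤ 13 * r ^ 2 * m := by
  have h1 : 2 * r * L ≤ 2 * r * (6 * r * m) := Nat.mul_le_mul_left _ hL
  have h2 : r * 1 ≤ r * (r * m) := Nat.mul_le_mul_left _ (Nat.mul_pos (by omega) hm)
  have e1 : 2 * r * (6 * r * m) = 12 * (r * (r * m)) := by ring
  have e2 : 13 * r ^ 2 * m = 13 * (r * (r * m)) := by ring
  omega

lemma ar3 (b r L k : ℕ) (hb : 2 ≤ b) (h1 : 2 * r * L + 1 ≤ k) (h2 : 2 * r + 1 ≤ k) :
    2 * r * (1 + (b - 1) * L) + (2 * r * L + 1) ≤ 2 * b * k := by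
  obtain ⟨c, rfl⟩ : ∃ c, b = c + 1 := ⟨b - 1, by omega⟩
  rw [Nat.add_sub_cancel]
  have h3 : (c + 1) * (2 * r * L) ≤ (c + 1) * k := Nat.mul_le_mul_left _ (by omega)
  have h4 : 1 * k ≤ (c + 1) * k := Nat.mul_le_mul_right _ (by omega)
  have e1 : 2 * r * (1 + c * L) + (2 * r * L + 1) = 2 * r + 1 + (c + 1) * (2 * r * L) := by ring
  have e2 : 2 * (c + 1) * k = 2 * ((c + 1) * k) := by ring
  omega

lemma key (b m s : ℕ) (hb : 2 ≤ b) (hm : 1 ≤ m) (hs : b * m < 2 ^ s) (γ : ℝ) :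
    ∃ S ⊆ range (13 * (b * s) ^ 2 * m), S.Nonempty ∧ ∃ z : ℤ,
      |γ * (∑ d ∈ S, b ^ d : ℕ) - z| ≤
        (2 * b * (13 * (b * s) ^ 2 * m) : ℕ) / ((b ^ m : ℕ) : ℝ) := by
  have hs1 : 1 ≤ s := by
    rcases Nat.eq_zero_or_pos s with rfl | h
    · have : 2 * 1 ≤ b * m := Nat.mul_le_mul hb hm
      omega
    · exact h
  have hr : b ≤ b * s := Nat.le_mul_of_pos_right _ hs1
  set r := b * s with hrdef
  set E := b * m + 2 * r * m + 1 with hE
  set L := E + 2 * m + 2 with hL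
  set k := 13 * r ^ 2 * m with hk
  have hL6 : L ≤ 6 * r * m := ar1 b r m hb hr hm
  obtain ⟨k1, k2⟩ := ar2 r m L (by omega) hm hL6
  have hP1 : 1 ≤ b ^ m := Nat.one_le_pow _ _ (by omega)
  have hP' : (0 : ℝ) < (b ^ m : ℕ) := by exact_mod_cast hP1
  have hM1 : 1 ≤ b ^ (E + m) := Nat.one_le_pow _ _ (by omega)
  by_cases hA : ∀ w < 2 * r, ∀ t : ℕ, 1 ≤ t → t ≤ b ^ m → ∀ z : ℤ,
      1 / ((b ^ (E + m) : ℕ) : ℝ) ≤ |t * (γ * b ^ (w * L)) - z|
  · obtain ⟨S, hS, hne, z, hz⟩ := caseA b m s L hb hs γ (fun w hw τ => by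
      obtain ⟨j, hj, z, hz⟩ := dense (γ * b ^ (w * L)) (b ^ m) (b ^ (E + m)) hP1 hM1 (hA w hw) τ
      refine ⟨j, lt_of_le_of_lt hj ?_, z, hz⟩
      have h1 : b ^ (E + m) + 1 ≤ b * b ^ (E + m) := by
        have : 2 * b ^ (E + m) ≤ b * b ^ (E + m) := Nat.mul_le_mul_right _ hb
        omega
      calc b ^ m * (b ^ (E + m) + 1) ≤ b ^ m * (b * b ^ (E + m)) := Nat.mul_le_mul_left _ h1
        _ = b ^ (E + 2 * m + 1) := by ring
        _ < b ^ L := Nat.pow_lt_pow_right (by omega) (by omega))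
    refine ⟨S, hS.trans (range_mono k1), hne, z, hz.trans ?_⟩
    refine div_le_div_of_nonneg_right ?_ hP'.le
    exact_mod_cast ar3 b r L k hb k1 k2
  · push Not at hA
    obtain ⟨w, hw, t, ht1, ht, z, hz⟩ := hA
    obtain ⟨e, q, he, hq, hq1, hq2, hd⟩ := cop b t ht1
    have he' : e ≤ b * m := by
      have h1 : b ^ m ≤ 2 ^ (b * m) := by
        rw [pow_mul]
        exact Nat.pow_le_pow_left (Nat.lt_two_pow_self).le _
      exact (Nat.pow_le_pow_iff_right (by norm_num)).1 (he.trans (ht.trans h1))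
    obtain ⟨S, hS, hne, hdv⟩ := mult b m s q hb hs hq1 (hq2.trans ht) hq
    have hlt : ∑ d ∈ S, b ^ d < b ^ (2 * r * m + 1) :=
      Nat.geomSum_lt hb fun d hd => mem_range.1 (hS hd)
    obtain ⟨u, hu⟩ : t ∣ b ^ e * ∑ d ∈ S, b ^ d := hd.trans (Nat.mul_dvd_mul_left _ hdv)
    have hu1 : u ≤ b ^ E := by
      calc u ≤ t * u := Nat.le_mul_of_pos_left _ ht1
        _ = b ^ e * ∑ d ∈ S, b ^ d := hu.symm
        _ ≤ b ^ (b * m) * b ^ (2 * r * m + 1) :=
          Nat.mul_le_mul (Nat.pow_le_pow_right (by omega) he') hlt.le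
        _ = b ^ E := by rw [← pow_add, hE, add_assoc]
    refine ⟨S.image (fun d => w * L + e + d), ?_, hne.image _, z * u, ?_⟩
    · intro d hd
      obtain ⟨c, hc, rfl⟩ := mem_image.1 hd
      have h1 : c < 2 * r * m + 1 := mem_range.1 (hS hc)
      have h2 : (w + 1) * L ≤ 2 * r * L := Nat.mul_le_mul_right _ hw
      have h3 : (w + 1) * L = w * L + L := by ring
      exact mem_range.2 (by omega)
    · rw [sum_image (fun x _ y _ h => by simpa using h)]
      have e1 : ∑ d ∈ S, b ^ (w * L + e + d) = b ^ (w * L) * (t * u) := by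
        rw [← hu, mul_sum, mul_sum]
        exact sum_congr rfl fun d _ => by ring
      rw [e1]
      have e2 : γ * ((b ^ (w * L) * (t * u) : ℕ) : ℝ) - ((z * u : ℤ) : ℝ) =
          u * (t * (γ * b ^ (w * L)) - z) := by push_cast; ring
      rw [e2, abs_mul, abs_of_nonneg (Nat.cast_nonneg u)]
      have hu2 : (u : ℝ) ≤ (b ^ E : ℕ) := by exact_mod_cast hu1
      have hb0 : (0 : ℝ) < b := by exact_mod_cast (by omega : 0 < b)
      calc (u : ℝ) * |t * (γ * b ^ (w * L)) - z| ≤ (b ^ E : ℕ) * (1 / ((b ^ (E + m) : ℕ) : ℝ)) :=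
            mul_le_mul hu2 hz.le (abs_nonneg _) (Nat.cast_nonneg _)
        _ = 1 / ((b ^ m : ℕ) : ℝ) := by push_cast; rw [pow_add (b : ℝ) E m]; field_simp
        _ ≤ _ := by
            refine div_le_div_of_nonneg_right ?_ hP'.le
            have : 1 ≤ 2 * b * k := Nat.mul_pos (by omega) (by omega)
            exact_mod_cast this

lemma an1 (x c : ℝ) (hx : 1 ≤ x) (hy : 1 ≤ Real.log x) (hc : 0 < c) :
    x ≤ 512 / c ^ 2 * Real.exp (c * x / Real.log x ^ 2) := by
  set q := x ^ (1 / 4 : ℝ) with hq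
  have hq0 : 0 < q := by positivity
  have hq4 : q ^ 4 = x := by
    rw [hq, ← Real.rpow_natCast, ← Real.rpow_mul (by linarith)]; norm_num
  have h1 : Real.log x ≤ 4 * q := by
    rw [← hq4, Real.log_pow]
    have := Real.log_le_sub_one_of_pos hq0
    push_cast; linarith
  have h2 : Real.log x ^ 2 ≤ 16 * q ^ 2 := by
    calc Real.log x ^ 2 ≤ (4 * q) ^ 2 := pow_le_pow_left₀ (by linarith) h1 2
      _ = _ := by ring
  have h3 : c * q ^ 2 / 16 ≤ c * x / Real.log x ^ 2 := by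
    rw [div_le_div_iff₀ (by norm_num) (by positivity), ← hq4]
    calc c * q ^ 2 * Real.log (q ^ 4) ^ 2 ≤ c * q ^ 2 * (16 * q ^ 2) := by
          rw [hq4]; exact mul_le_mul_of_nonneg_left h2 (by positivity)
      _ = _ := by ring
  have h4 : (c * q ^ 2 / 16) ^ 2 / 2 ≤ Real.exp (c * q ^ 2 / 16) := by
    have := Real.quadratic_le_exp_of_nonneg (x := c * q ^ 2 / 16) (by positivity)
    have : 0 ≤ c * q ^ 2 / 16 := by positivity
    linarith
  have h5 := h4.trans (Real.exp_le_exp.2 h3)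
  calc x = 512 / c ^ 2 * ((c * q ^ 2 / 16) ^ 2 / 2) := by rw [← hq4]; field_simp; ring
    _ ≤ _ := mul_le_mul_of_nonneg_left h5 (by positivity)

lemma main (b : ℕ) (hb : 2 ≤ b) : ∃ c C : ℝ, 0 < c ∧ 0 < C ∧ ∀ N : ℕ, 16 ≤ N → ∀ γ : ℝ,
    ∃ S : Finset ℕ, S.Nonempty ∧ ∑ d ∈ S, b ^ d ≤ N ∧ ∃ z : ℤ,
      |γ * (∑ d ∈ S, b ^ d : ℕ) - z| ≤
        C * Real.exp (-(c * Real.log N / Real.log (Real.log N) ^ 2)) := by
  have hb' : (2 : ℝ) ≤ b := by exact_mod_cast hb
  set A : ℝ := 117 * b ^ 3 with hA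
  have hA0 : 0 < A := by positivity
  set c : ℝ := 1 / (4 * A) with hc
  have hc0 : 0 < c := by positivity
  refine ⟨c, 4 * (512 / c ^ 2) + 2, hc0, by positivity, fun N hN γ => ?_⟩
  set x := Real.log N with hx
  set y := Real.log x with hy
  have hN' : (16 : ℝ) ≤ N := by exact_mod_cast hN
  have l2 := Real.log_two_gt_d9
  have l2' := Real.log_two_lt_d9
  have hx1 : Real.exp 1 ≤ x := by
    have h1 : Real.log 16 ≤ x := Real.log_le_log (by norm_num) hN'
    have h2 : Real.log 16 = 4 * Real.log 2 := by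
      rw [show (16 : ℝ) = 2 ^ 4 by norm_num, Real.log_pow]; norm_num
    have := Real.exp_one_lt_d9
    linarith
  have hx2 : 1 ≤ x := by have := Real.add_one_le_exp (1 : ℝ); linarith
  have hy1 : 1 ≤ y := by
    rw [hy, Real.le_log_iff_exp_le (by linarith)]; exact hx1
  set v := x / (A * y ^ 2) with hv
  have hv0 : 0 < v := by positivity
  have hcv : c * x / y ^ 2 = v / 4 := by rw [hc, hv]; field_simp
  rw [hcv]
  set m := ⌊v⌋₊ with hm
  have m1 : (m : ℝ) ≤ v := Nat.floor_le hv0.le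
  have m2 : v < m + 1 := Nat.lt_floor_add_one _
  have hC : 0 ≤ 512 / c ^ 2 := by positivity
  rcases Nat.eq_zero_or_pos m with h0 | hm1
  · refine ⟨{0}, singleton_nonempty _, by simp; omega, round γ, ?_⟩
    have h1 : |γ - round γ| ≤ 1 / 2 := abs_sub_round γ
    have h2 : 1 / 4 ≤ Real.exp (-(v / 4)) := by
      have := Real.add_one_le_exp (-(v / 4))
      rw [h0] at m2
      push_cast at m2
      linarith
    have h3 : 0 ≤ 4 * (512 / c ^ 2) * Real.exp (-(v / 4)) := by positivity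
    simp only [sum_singleton, pow_zero, Nat.cast_one, mul_one]
    rw [add_mul]; linarith
  · set s := ⌊2 * y⌋₊ + 1 with hs
    have s1 : (s : ℝ) ≤ 3 * y := by
      have := Nat.floor_le (show 0 ≤ 2 * y by linarith)
      rw [hs]; push_cast; linarith
    have s2 : 2 * y < s := by
      have := Nat.lt_floor_add_one (2 * y)
      rw [hs]; push_cast; linarith
    have hk : ((13 * (b * s) ^ 2 * m : ℕ) : ℝ) * b ≤ x := by
      push_cast
      have h1 : (13 : ℝ) * (b * s) ^ 2 * m * b ≤ 13 * (b * (3 * y)) ^ 2 * v * b := by gcongr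
      have h2 : (13 : ℝ) * (b * (3 * y)) ^ 2 * v * b = x := by
        rw [hv, hA]; field_simp; ring
      linarith
    have hbm : b * m < 2 ^ s := by
      have h1 : ((b * m : ℕ) : ℝ) ≤ x := by
        refine le_trans ?_ hk
        have : b * m ≤ 13 * (b * s) ^ 2 * m * b := by
          have h2 : 1 ≤ 13 * (b * s) ^ 2 := by
            have : 0 < b * s := Nat.mul_pos (by omega) (by omega)
            have : 0 < (b * s) ^ 2 := by positivity
            omega
          calc b * m = 1 * (m * b) := by ring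
            _ ≤ 13 * (b * s) ^ 2 * (m * b) := Nat.mul_le_mul_right _ h2
            _ = _ := by ring
        exact_mod_cast this
      have h2 : x < (2 : ℝ) ^ s := by
        rw [← Real.log_lt_log_iff (by linarith) (by positivity), Real.log_pow, ← hy]
        have : 2 * y * Real.log 2 < s * Real.log 2 := mul_lt_mul_of_pos_right s2 (by linarith)
        have : y * 1 ≤ y * (2 * Real.log 2) := mul_le_mul_of_nonneg_left (by linarith) (by linarith)
        linarith
      have : ((b * m : ℕ) : ℝ) < (2 : ℝ) ^ s := lt_of_le_of_lt h1 h2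
      exact_mod_cast this
    obtain ⟨S, hS, hne, z, hz⟩ := key b m s hb hm1 hbm γ
    set k := 13 * (b * s) ^ 2 * m with hkd
    refine ⟨S, hne, ?_, z, hz.trans ?_⟩
    · have hlt : ∑ d ∈ S, b ^ d < b ^ k := Nat.geomSum_lt hb fun d hd => mem_range.1 (hS hd)
      refine hlt.le.trans ?_
      have h1 : ((b : ℝ)) ^ k ≤ N := by
        rw [← Real.log_le_log_iff (by positivity) (by linarith), Real.log_pow, ← hx]
        have : Real.log b ≤ b := by
          have := Real.log_le_sub_one_of_pos (show (0 : ℝ) < b by linarith); linarith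
        have : (k : ℝ) * Real.log b ≤ k * b := mul_le_mul_of_nonneg_left this (Nat.cast_nonneg _)
        linarith
      exact_mod_cast h1
    · have h1 : ((2 * b * k : ℕ) : ℝ) ≤ 2 * x := by
        have : ((2 * b * k : ℕ) : ℝ) = 2 * ((k : ℝ) * b) := by push_cast; ring
        rw [this]; linarith
      have h2 : Real.exp (v / 2) / 2 ≤ ((b ^ m : ℕ) : ℝ) := by
        have h3 : (2 : ℝ) ^ m ≤ (b : ℝ) ^ m := pow_le_pow_left₀ (by norm_num) hb' _
        have h4 : Real.exp (v / 2) ≤ 2 ^ (m + 1) := by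
          rw [← Real.le_log_iff_exp_le (by positivity), Real.log_pow]
          push_cast
          have : ((m : ℝ) + 1) * (1 / 2) ≤ (m + 1) * Real.log 2 :=
            mul_le_mul_of_nonneg_left (by linarith) (by positivity)
          linarith
        push_cast
        rw [pow_succ] at h4; linarith
      have h5 := an1 x c hx2 hy1 hc0
      rw [← hy, hcv] at h5
      have h6 : Real.exp (v / 2) = Real.exp (v / 4) * Real.exp (v / 4) := by
        rw [← Real.exp_add]; congr 1; ring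
      have h7 : 0 < Real.exp (v / 4) := Real.exp_pos _
      calc ((2 * b * k : ℕ) : ℝ) / ((b ^ m : ℕ) : ℝ) ≤ (2 * x) / (Real.exp (v / 2) / 2) :=
            div_le_div₀ (by linarith) h1 (by positivity) h2
        _ ≤ (2 * (512 / c ^ 2 * Real.exp (v / 4))) / (Real.exp (v / 2) / 2) := by gcongr
        _ = 4 * (512 / c ^ 2) * Real.exp (-(v / 4)) := by
            rw [h6, Real.exp_neg]; field_simp; ring
        _ ≤ _ := by
            have : 0 < Real.exp (-(v / 4)) := Real.exp_pos _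
            rw [add_mul]; linarith

end Pool.Agent.H46.Dg
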